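import Pool.Agent.H283.HT.Stm

/-!
# Project HT (helper283), part FAR: a farthest point is not in the relative interior of a segment
-/

set_option autoImplicit false
set_option linter.all false

namespace Pool.Agent.H550.HTFAR

open Pool.Agent.H283.HT

theorem FAR_done (hDI : S_DI) : S_FAR := by
  intro Q q hQ hq
  have hcont : Continuous (fun p : P2 => dt p p) := by
    unfold dt
    fun_prop
  obtain ⟨p, hp, hmax⟩ := hQ.comp.exists_isMaxOn ⟨0, interior_subset hQ.zero⟩ hcont.continuousOn
  have hmax' : ∀ u ∈ Q, dt u u ≤ dt p p := fun u hu => hmax hu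
  have hpi : p ∉ interior Q := by
    intro hpi
    obtain ⟨e, he, hball⟩ := Metric.isOpen_iff.1 isOpen_interior p hpi
    have h1 : ((p.1 + e / 2, p.2) : P2) ∈ Q := by
      apply interior_subset
      apply hball
      rw [Metric.mem_ball, Prod.dist_eq]
      simp only [dist_self, Real.dist_eq]
      rw [max_lt_iff]
      constructor
      · rw [show p.1 + e / 2 - p.1 = e / 2 by ring, abs_of_pos (by linarith)]
        linarith
      · exact he
    have h2 : ((p.1 - e / 2, p.2) : P2) ∈ Q := by
      apply interior_subset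
      apply hball
      rw [Metric.mem_ball, Prod.dist_eq]
      simp only [dist_self, Real.dist_eq]
      rw [max_lt_iff]
      constructor
      · rw [show p.1 - e / 2 - p.1 = -(e / 2) by ring, abs_neg, abs_of_pos (by linarith)]
        linarith
      · exact he
    have h3 := hmax' _ h1
    have h4 := hmax' _ h2
    unfold dt at h3 h4
    simp only at h3 h4
    nlinarith
  obtain ⟨a, ha⟩ := hq.onto p hp hpi
  refine ⟨a, ?_⟩
  intro α γ u v hα hγ hs hu hv hqa
  rw [ha] at hqa
  have h1 := hmax' u hu
  have h2 := hmax' v hv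
  have e1 : p.1 = α * u.1 + γ * v.1 := by
    rw [hqa]
    simp [Prod.fst_add, Prod.smul_fst]
  have e2 : p.2 = α * u.2 + γ * v.2 := by
    rw [hqa]
    simp [Prod.snd_add, Prod.smul_snd]
  have h3 : dt p p = α * dt u u + γ * dt v v - α * γ * ((u.1 - v.1) ^ 2 + (u.2 - v.2) ^ 2) := by
    unfold dt
    rw [e1, e2]
    have : γ = 1 - α := by linarith
    subst this
    ring
  have h4 : α * dt u u + γ * dt v v ≤ dt p p := by
    calc α * dt u u + γ * dt v v ≤ α * dt p p + γ * dt p p :=
          add_le_add (mul_le_mul_of_nonneg_left h1 hα.le) (mul_le_mul_of_nonneg_left h2 hγ.le)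
      _ = dt p p := by rw [← add_mul, hs, one_mul]
  have h5 : α * γ * ((u.1 - v.1) ^ 2 + (u.2 - v.2) ^ 2) ≤ 0 := by linarith
  have h6 : (u.1 - v.1) ^ 2 + (u.2 - v.2) ^ 2 ≤ 0 := by
    by_contra h
    push Not at h
    have := mul_pos (mul_pos hα hγ) h
    linarith
  have h7 : (u.1 - v.1) ^ 2 = 0 := by nlinarith [sq_nonneg (u.1 - v.1), sq_nonneg (u.2 - v.2)]
  have h8 : (u.2 - v.2) ^ 2 = 0 := by nlinarith [sq_nonneg (u.1 - v.1), sq_nonneg (u.2 - v.2)]
  have h9 : u.1 - v.1 = 0 := by simpa using h7
  have h10 : u.2 - v.2 = 0 := by simpa using h8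
  exact Prod.ext (by linarith) (by linarith)

end Pool.Agent.H550.HTFAR

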