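import Pool.Agent.H416.DT.Tasks

/-!
# DT4: a finitely generated field extension is finite over some `k(f)`
-/

set_option autoImplicit false
set_option linter.all false

namespace Pool.Agent.H550.DT

open Polynomial
open Pool.Agent.H416.DT

universe u

theorem DT4_holds : S_DT4.{u} := by
  intro K L _ _ _ S hSfin hS f hf
  -- the basis
  have h0 : Algebra.IsAlgebraic (IntermediateField.adjoin K (insert f S)) L := by
    have h1 : IntermediateField.adjoin K (insert f S) = ⊤ := by
      rw [eq_top_iff, ← hS]
      exact IntermediateField.adjoin.mono K _ _ (Set.subset_insert f S)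
    refine ⟨fun x => ?_⟩
    have h2 : x ∈ IntermediateField.adjoin K (insert f S) := by
      rw [h1]
      exact IntermediateField.mem_top
    exact isAlgebraic_algebraMap (⟨x, h2⟩ : IntermediateField.adjoin K (insert f S))
  have h0' : Algebra.IsAlgebraic (Algebra.adjoin K (insert f S)) L :=
    IntermediateField.isAlgebraic_adjoin_iff_top.1 h0
  have hind : AlgebraicIndepOn K id ({f} : Set L) := by
    have h1 : AlgebraicIndependent K (fun i : ({f} : Set L) => id (i : L)) := by
      rw [algebraicIndependent_singleton_iff (⟨f, rfl⟩ : ({f} : Set L))]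
      exact hf
    exact h1
  obtain ⟨B, hB1, hB2, hB⟩ := exists_isTranscendenceBasis_between (R := K) (A := L) {f}
    (insert f S) (Set.singleton_subset_iff.2 (Set.mem_insert f S)) hind
  have hfB : f ∈ B := hB1 rfl
  -- the field
  refine ⟨IntermediateField.adjoin K (B \ {f}), ?_, ?_⟩
  · rw [IntermediateField.transcendental_adjoin_iff]
    have h1 := hB.1.transcendental_adjoin (s := {i : B | (i : L) ≠ f}) (i := ⟨f, hfB⟩)
      (fun h => h rfl)
    have h2 : ((↑) : B → L) '' {i : B | (i : L) ≠ f} = B \ {f} := by
      ext a
      constructor
      · rintro ⟨i, hi, rfl⟩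
        exact ⟨i.2, hi⟩
      · rintro ⟨ha, haf⟩
        exact ⟨⟨a, ha⟩, haf, rfl⟩
    rw [h2] at h1
    exact h1
  · obtain ⟨k, hk⟩ : ∃ k, k = IntermediateField.adjoin K (B \ {f}) := ⟨_, rfl⟩
    rw [← hk]
    obtain ⟨E, hE⟩ : ∃ E, E = IntermediateField.adjoin k ({f} : Set L) := ⟨_, rfl⟩
    rw [← hE]
    -- `B` is in `E`
    have hBE : ∀ x ∈ B, x ∈ E := by
      intro x hx
      by_cases hxf : x = f
      · rw [hxf, hE]
        exact IntermediateField.subset_adjoin k _ rfl
      · have h1 : x ∈ k := by
          rw [hk]
          exact IntermediateField.subset_adjoin K _ ⟨hx, hxf⟩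
        exact E.algebraMap_mem (⟨x, h1⟩ : k)
    have hKE : IntermediateField.adjoin K B ≤ E.restrictScalars K :=
      IntermediateField.adjoin_le_iff.2 hBE
    have halg : Algebra.IsAlgebraic (IntermediateField.adjoin K B) L := by
      have h1 := hB.isAlgebraic_field
      rw [Subtype.range_coe] at h1
      exact h1
    have hKE' : ∀ a ∈ IntermediateField.adjoin K B, a ∈ E := fun a ha => hKE ha
    let g : IntermediateField.adjoin K B →+* E :=
      { toFun := fun a => ⟨a.1, hKE' a.1 a.2⟩
        map_one' := rfl
        map_mul' := fun _ _ => rfl
        map_zero' := rfl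
        map_add' := fun _ _ => rfl }
    have hg : ∀ a, ((g a : E) : L) = a := fun _ => rfl
    have hgc : (algebraMap E L).comp g = algebraMap (IntermediateField.adjoin K B) L :=
      RingHom.ext hg
    have halgE : ∀ x : L, IsAlgebraic E x := by
      intro x
      obtain ⟨p, hp, hpx⟩ := halg.isAlgebraic x
      refine ⟨p.map g, ?_, ?_⟩
      · intro h1
        apply hp
        exact Polynomial.map_injective g g.injective (by rw [h1, Polynomial.map_zero])
      · rw [Polynomial.aeval_def, Polynomial.eval₂_map, hgc]
        exact hpx
    have hfinS : Finite S := hSfin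
    have hfd : FiniteDimensional E (IntermediateField.adjoin E S) :=
      IntermediateField.finiteDimensional_adjoin fun x _ => (halgE x).isIntegral
    have htop : IntermediateField.adjoin E S = ⊤ := by
      rw [eq_top_iff]
      intro x _
      have h1 : ∀ a ∈ IntermediateField.adjoin K S, a ∈ IntermediateField.adjoin E S := by
        intro a ha
        induction ha using IntermediateField.adjoin_induction with
        | mem a ha => exact IntermediateField.subset_adjoin E S ha
        | algebraMap c =>
          have h3 : algebraMap K L c ∈ E := by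
            rw [IsScalarTower.algebraMap_apply K k L]
            exact E.algebraMap_mem _
          exact (IntermediateField.adjoin E S).algebraMap_mem (⟨_, h3⟩ : E)
        | add a b _ _ ha hb => exact add_mem ha hb
        | inv a _ ha => exact inv_mem ha
        | mul a b _ _ ha hb => exact mul_mem ha hb
      have h2 : x ∈ IntermediateField.adjoin K S := by
        rw [hS]
        exact IntermediateField.mem_top
      exact h1 x h2
    rw [htop] at hfd
    exact Module.Finite.equiv (IntermediateField.topEquiv (F := E) (E := L)).toLinearEquiv

end Pool.Agent.H550.DT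

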