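import Pool.Agent.H950.FK.St

/-!
T5: translation invariance of the FK measures of the domains between two graphs.
-/

set_option autoImplicit false

namespace Pool.Agent.H550.FK

open H974 H984P H984N Pool.Agent.H950.FK

/-- translation of the vertices and of the faces -/
def tv (v : ℤ × ℤ) : Vtx ≃ Vtx where
  toFun u := (u.1 + v.1, u.2 + v.2)
  invFun u := (u.1 - v.1, u.2 - v.2)
  left_inv u := by ext <;> simp
  right_inv u := by ext <;> simp

/-- translation of the edges -/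
def te (v : ℤ × ℤ) : Edg ≃ Edg where
  toFun e := (e.1 + v.1, e.2.1 + v.2, e.2.2)
  invFun e := (e.1 - v.1, e.2.1 - v.2, e.2.2)
  left_inv e := by ext <;> simp
  right_inv e := by ext <;> simp

section

variable (v : ℤ × ℤ)

theorem tv_apply (u : Vtx) : tv v u = (u.1 + v.1, u.2 + v.2) := rfl

theorem src_te (e : Edg) : src (te v e) = tv v (src e) := rfl

theorem tgt_te (e : Edg) : tgt (te v e) = tv v (tgt e) := by
  obtain ⟨x, y, b⟩ := e
  cases b
  · show ((x + v.1, y + v.2 + 1) : Vtx) = (x + v.1, y + 1 + v.2)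
    ext
    · rfl
    · show y + v.2 + 1 = y + 1 + v.2
      ring
  · show ((x + v.1 + 1, y + v.2) : Vtx) = (x + 1 + v.1, y + v.2)
    ext
    · show x + v.1 + 1 = x + 1 + v.1
      ring
    · rfl

theorem dtgt_te (e : Edg) : dtgt (te v e) = tv v (dtgt e) := rfl

theorem dsrc_te (e : Edg) : dsrc (te v e) = tv v (dsrc e) := by
  obtain ⟨x, y, b⟩ := e
  cases b
  · show ((x + v.1 - 1, y + v.2) : Vtx) = (x - 1 + v.1, y + v.2)
    ext
    · show x + v.1 - 1 = x - 1 + v.1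
      ring
    · rfl
  · show ((x + v.1, y + v.2 - 1) : Vtx) = (x + v.1, y - 1 + v.2)
    ext
    · rfl
    · show y + v.2 - 1 = y - 1 + v.2
      ring

theorem adj_te {S S' : Set Edg} (h : ∀ e, e ∈ S ↔ te v e ∈ S') (u w : Vtx) :
    Adj S u w ↔ Adj S' (tv v u) (tv v w) := by
  constructor
  · rintro ⟨e, he, hor⟩
    refine ⟨te v e, (h e).1 he, ?_⟩
    rw [src_te, tgt_te]
    rcases hor with ⟨h1, h2⟩ | ⟨h1, h2⟩
    · exact Or.inl ⟨by rw [h1], by rw [h2]⟩
    · exact Or.inr ⟨by rw [h1], by rw [h2]⟩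
  · rintro ⟨e', he', hor⟩
    obtain ⟨e, rfl⟩ := (te v).surjective e'
    refine ⟨e, (h e).2 he', ?_⟩
    rw [src_te, tgt_te] at hor
    rcases hor with ⟨h1, h2⟩ | ⟨h1, h2⟩
    · exact Or.inl ⟨(tv v).injective h1, (tv v).injective h2⟩
    · exact Or.inr ⟨(tv v).injective h1, (tv v).injective h2⟩

theorem dadj_te {S S' : Set Edg} (h : ∀ e, e ∈ S ↔ te v e ∈ S') (u w : Vtx) :
    DAdj S u w ↔ DAdj S' (tv v u) (tv v w) := by
  constructor
  · rintro ⟨e, he, hor⟩
    refine ⟨te v e, (h e).1 he, ?_⟩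
    rw [dsrc_te, dtgt_te]
    rcases hor with ⟨h1, h2⟩ | ⟨h1, h2⟩
    · exact Or.inl ⟨by rw [h1], by rw [h2]⟩
    · exact Or.inr ⟨by rw [h1], by rw [h2]⟩
  · rintro ⟨e', he', hor⟩
    obtain ⟨e, rfl⟩ := (te v).surjective e'
    refine ⟨e, (h e).2 he', ?_⟩
    rw [dsrc_te, dtgt_te] at hor
    rcases hor with ⟨h1, h2⟩ | ⟨h1, h2⟩
    · exact Or.inl ⟨(tv v).injective h1, (tv v).injective h2⟩
    · exact Or.inr ⟨(tv v).injective h1, (tv v).injective h2⟩

theorem rtg_te {R R' : Vtx → Vtx → Prop} (h : ∀ u w, R u w ↔ R' (tv v u) (tv v w)) (u w : Vtx) :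
    Relation.ReflTransGen R u w ↔ Relation.ReflTransGen R' (tv v u) (tv v w) := by
  constructor
  · intro h1
    induction h1 with
    | refl => exact Relation.ReflTransGen.refl
    | tail _ h2 ih => exact ih.tail ((h _ _).1 h2)
  · intro h1
    obtain ⟨w', hw'⟩ : ∃ w', w' = tv v w := ⟨_, rfl⟩
    rw [← hw'] at h1
    induction h1 generalizing w with
    | refl =>
      rw [(tv v).injective hw']
    | @tail b c _ h2 ih =>
      obtain ⟨b', rfl⟩ := (tv v).surjective b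
      rw [hw'] at h2
      exact (ih b' rfl).tail ((h _ _).2 h2)

theorem reach_te {S S' : Set Edg} (h : ∀ e, e ∈ S ↔ te v e ∈ S') (u w : Vtx) :
    Reach S u w ↔ Reach S' (tv v u) (tv v w) :=
  rtg_te v (adj_te v h) u w

theorem dreach_te {S S' : Set Edg} (h : ∀ e, e ∈ S ↔ te v e ∈ S') (u w : Vtx) :
    DReach S u w ↔ DReach S' (tv v u) (tv v w) :=
  rtg_te v (dadj_te v h) u w

theorem cor_tv (f u : Vtx) : cor (tv v f) (tv v u) ↔ cor f u := by
  unfold cor
  rw [tv_apply, tv_apply]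
  show ((u.1 + v.1 = f.1 + v.1 ∨ u.1 + v.1 = f.1 + v.1 + 1) ∧
    (u.2 + v.2 = f.2 + v.2 ∨ u.2 + v.2 = f.2 + v.2 + 1)) ↔ _
  constructor
  · rintro ⟨h1, h2⟩
    constructor <;> omega
  · rintro ⟨h1, h2⟩
    constructor <;> omega

variable (D : GD)

theorem mem_W (u : Vtx) : tv v u ∈ (D.shift v).W ↔ u ∈ D.W := by
  show u.1 + v.1 ≤ D.w (u.2 + v.2 - v.2) + v.1 ↔ u.1 ≤ D.w u.2
  rw [add_sub_cancel_right]
  constructor <;> intro h <;> omega

theorem mem_Z (u : Vtx) : tv v u ∈ (D.shift v).Z ↔ u ∈ D.Z := by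
  show D.z (u.2 + v.2 - v.2) + v.1 ≤ u.1 + v.1 ↔ D.z u.2 ≤ u.1
  rw [add_sub_cancel_right]
  constructor <;> intro h <;> omega

theorem mem_We (e : Edg) : te v e ∈ (D.shift v).We ↔ e ∈ D.We := by
  show (src (te v e) ∈ (D.shift v).W ∧ tgt (te v e) ∈ (D.shift v).W) ↔ (src e ∈ D.W ∧ tgt e ∈ D.W)
  rw [src_te, tgt_te, mem_W, mem_W]

theorem mem_rnd (e : Edg) : te v e ∈ (D.shift v).rnd ↔ e ∈ D.rnd := by
  show (src (te v e) ∉ (D.shift v).Z ∧ tgt (te v e) ∉ (D.shift v).Z ∧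
    ¬ (src (te v e) ∈ (D.shift v).W ∧ tgt (te v e) ∈ (D.shift v).W)) ↔
    (src e ∉ D.Z ∧ tgt e ∉ D.Z ∧ ¬ (src e ∈ D.W ∧ tgt e ∈ D.W))
  rw [src_te, tgt_te, mem_W, mem_W, mem_Z, mem_Z]

theorem mem_E' (e : Edg) : te v e ∈ (D.shift v).E ↔ e ∈ D.E := by
  rw [GD.mem_E, GD.mem_E, mem_rnd]

/-- translation of the configurations -/
def tf : Finset Edg ≃ Finset Edg := Equiv.finsetCongr (te v)

theorem mem_tf (F : Finset Edg) (e : Edg) : te v e ∈ tf v F ↔ e ∈ F := by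
  rw [tf, Equiv.finsetCongr_apply]
  exact Finset.mem_map' _

theorem mem_cfg (F : Finset Edg) (e : Edg) : e ∈ D.cfg F ↔ te v e ∈ (D.shift v).cfg (tf v F) := by
  show (e ∈ F ∨ e ∈ D.We) ↔ (te v e ∈ tf v F ∨ te v e ∈ (D.shift v).We)
  rw [mem_tf, mem_We]

theorem mem_cfgc (F : Finset Edg) (e : Edg) :
    e ∈ (D.cfg F)ᶜ ↔ te v e ∈ ((D.shift v).cfg (tf v F))ᶜ := by
  rw [Set.mem_compl_iff, Set.mem_compl_iff, mem_cfg v D F e]

theorem mem_pow (F : Finset Edg) : F ∈ D.E.powerset ↔ tf v F ∈ (D.shift v).E.powerset := by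
  rw [Finset.mem_powerset, Finset.mem_powerset]
  constructor
  · intro h e' he'
    obtain ⟨e, rfl⟩ := (te v).surjective e'
    exact (mem_E' v D e).2 (h ((mem_tf v F e).1 he'))
  · intro h e he
    exact (mem_E' v D e).1 (h ((mem_tf v F e).2 he))

theorem ncl_tf (F : Finset Edg) : (D.shift v).ncl (tf v F) = D.ncl F := by
  unfold GD.ncl
  have h : {K : Set Vtx | ∃ u, u ∉ (D.shift v).Z ∧
      K = {w | Reach ((D.shift v).cfg (tf v F)) u w}} =
      (fun K => (tv v) '' K) '' {K : Set Vtx | ∃ u, u ∉ D.Z ∧ K = {w | Reach (D.cfg F) u w}} := by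
    ext K
    constructor
    · rintro ⟨u', hu', rfl⟩
      obtain ⟨u, rfl⟩ := (tv v).surjective u'
      refine ⟨{w | Reach (D.cfg F) u w}, ⟨u, fun h => hu' ((mem_Z v D u).2 h), rfl⟩, ?_⟩
      ext w'
      obtain ⟨w, rfl⟩ := (tv v).surjective w'
      constructor
      · rintro ⟨w2, hw2, h2⟩
        rw [← (tv v).injective h2]
        exact (reach_te v (mem_cfg v D F) u w2).1 hw2
      · intro hw
        exact ⟨w, (reach_te v (mem_cfg v D F) u w).2 hw, rfl⟩
    · rintro ⟨K', ⟨u, hu, rfl⟩, rfl⟩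
      refine ⟨tv v u, fun h => hu ((mem_Z v D u).1 h), ?_⟩
      ext w'
      obtain ⟨w, rfl⟩ := (tv v).surjective w'
      constructor
      · rintro ⟨w2, hw2, h2⟩
        rw [← (tv v).injective h2]
        exact (reach_te v (mem_cfg v D F) u w2).1 hw2
      · intro hw
        exact ⟨w, (reach_te v (mem_cfg v D F) u w).2 hw, rfl⟩
  rw [h, Set.ncard_image_of_injective _ (tv v).injective.image_injective]

theorem wt_tf (x q : ℝ) (F : Finset Edg) : (D.shift v).wt x q (tf v F) = D.wt x q F := by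
  unfold GD.wt
  rw [ncl_tf, tf, Equiv.finsetCongr_apply, Finset.card_map]

theorem mu_tf (x q : ℝ) (F : Finset Edg) : (D.shift v).mu x q (tf v F) = D.mu x q F := by
  unfold GD.mu
  rw [wt_tf]
  have h : ∑ G ∈ D.E.powerset, D.wt x q G =
      ∑ G ∈ (D.shift v).E.powerset, (D.shift v).wt x q G :=
    Finset.sum_equiv (tf v) (fun G => mem_pow v D G) (fun G _ => (wt_tf v D x q G).symm)
  rw [h]

theorem P_tf (x q : ℝ) (A A' : Finset Edg → Prop) (h : ∀ F, A F ↔ A' (tf v F)) :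
    (D.shift v).P x q A' = D.P x q A := by
  unfold GD.P
  symm
  refine Finset.sum_equiv (tf v) (fun G => mem_pow v D G) (fun G _ => ?_)
  by_cases hA : A G
  · rw [if_pos hA, if_pos ((h G).1 hA), mu_tf]
  · rw [if_neg hA, if_neg (fun h2 => hA ((h G).2 h2))]

theorem clu_tf (F : Finset Edg) (u : Vtx) : tv v u ∈ (D.shift v).clu (tf v F) ↔ u ∈ D.clu F := by
  constructor
  · rintro ⟨w', hw', h⟩
    obtain ⟨w, rfl⟩ := (tv v).surjective w'
    exact ⟨w, (mem_W v D w).1 hw', (reach_te v (mem_cfg v D F) w u).2 h⟩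
  · rintro ⟨w, hw, h⟩
    exact ⟨tv v w, (mem_W v D w).2 hw, (reach_te v (mem_cfg v D F) w u).1 h⟩

theorem dclu_tf (F : Finset Edg) (u : Vtx) :
    tv v u ∈ (D.shift v).dclu (tf v F) ↔ u ∈ D.dclu F := by
  constructor
  · rintro ⟨g', ⟨w', hw', hc⟩, h⟩
    obtain ⟨w, rfl⟩ := (tv v).surjective w'
    obtain ⟨g, rfl⟩ := (tv v).surjective g'
    exact ⟨g, ⟨w, (mem_Z v D w).1 hw', (cor_tv v g w).1 hc⟩,
      (dreach_te v (mem_cfgc v D F) g u).2 h⟩
  · rintro ⟨g, ⟨w, hw, hc⟩, h⟩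
    exact ⟨tv v g, ⟨tv v w, (mem_Z v D w).2 hw, (cor_tv v g w).2 hc⟩,
      (dreach_te v (mem_cfgc v D F) g u).1 h⟩

end

theorem t_shift : Pool.Agent.H950.FK.S_shift := by
  intro D v x q z r
  constructor
  · apply P_tf
    intro F
    constructor
    · rintro ⟨u, hu, h1, h2⟩
      refine ⟨tv v u, (clu_tf v D F u).2 hu, ?_⟩
      simp only at h1 h2
      rw [tv_apply]
      constructor <;> constructor <;> omega
    · rintro ⟨u', hu', h1, h2⟩
      obtain ⟨u, rfl⟩ := (tv v).surjective u'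
      rw [tv_apply] at h1 h2
      refine ⟨u, (clu_tf v D F u).1 hu', ?_⟩
      simp only at h1 h2 ⊢
      constructor <;> constructor <;> omega
  · apply P_tf
    intro F
    constructor
    · rintro ⟨u, hu, h1, h2⟩
      refine ⟨tv v u, (dclu_tf v D F u).2 hu, ?_⟩
      simp only at h1 h2
      rw [tv_apply]
      constructor <;> constructor <;> omega
    · rintro ⟨u', hu', h1, h2⟩
      obtain ⟨u, rfl⟩ := (tv v).surjective u'
      rw [tv_apply] at h1 h2
      refine ⟨u, (dclu_tf v D F u).1 hu', ?_⟩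
      simp only at h1 h2 ⊢
      constructor <;> constructor <;> omega

end Pool.Agent.H550.FK

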