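import Pool.Agent.H867.FT.Gen10

/-!
# Cartier maps extend to the completion
-/

namespace Pool.Agent.H550.FT867CXT

open Pool.Agent.H867.FT IsLocalRing

/-- a splitting is uniformly continuous -/
lemma unif {q : ℕ} {R : Type} [CommRing R] [IsNoetherianRing R] (m : Ideal R)
    (φ : R →+ R) (hφ : ∀ r s : R, φ (r ^ q * s) = r * φ s) (j : ℕ) :
    ∃ N : ℕ, ∀ r ∈ m ^ N, φ r ∈ m ^ j := by
  set I : Ideal R := Ideal.span ((fun r : R => r ^ q) '' (m ^ j : Ideal R)) with hI
  have h1 : m ^ j ≤ I.radical := by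
    intro r hr
    exact ⟨q, Ideal.subset_span ⟨r, hr, rfl⟩⟩
  obtain ⟨n, hn⟩ := Ideal.exists_pow_le_of_le_radical_of_fg h1 (IsNoetherian.noetherian (m ^ j))
  refine ⟨j * n, fun r hr => ?_⟩
  rw [pow_mul] at hr
  have h2 : r ∈ I := hn hr
  have h3 : ∀ y ∈ I, ∀ a, φ (a * y) ∈ m ^ j := by
    intro y hy
    rw [hI] at hy
    induction hy using Submodule.span_induction with
    | mem x hx =>
      obtain ⟨r, hr, rfl⟩ := hx
      intro a
      show φ (a * r ^ q) ∈ m ^ j
      rw [mul_comm, hφ]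
      exact Ideal.mul_mem_right _ _ hr
    | zero =>
      intro a
      rw [mul_zero, map_zero]
      exact zero_mem _
    | add x y _ _ hx hy =>
      intro a
      rw [mul_add, map_add]
      exact add_mem (hx a) (hy a)
    | smul b x hx ih =>
      intro a
      rw [smul_eq_mul, ← mul_assoc]
      exact ih _
  have := h3 r h2 1
  rwa [one_mul] at this

theorem cxt : Pool.Agent.H867.FT.S_CXT := by
  intro q R S _ _ _ _ _ _ _ ι hq hd hiff φ hφ
  have hup : ∀ (n : ℕ) (r : R), r ∈ maximalIdeal R ^ n → ι r ∈ maximalIdeal S ^ n :=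
    fun n r => (hiff n r).1
  have hdn : ∀ (n : ℕ) (r : R), ι r ∈ maximalIdeal S ^ n → r ∈ maximalIdeal R ^ n :=
    fun n r => (hiff n r).2
  set mR := maximalIdeal R with hmR
  set mS := maximalIdeal S with hmS
  choose N0 hN0 using unif mR φ hφ
  obtain ⟨N, hN⟩ : ∃ N : ℕ → ℕ, N = fun j => ∑ i ∈ Finset.range (j + 1), N0 i := ⟨_, rfl⟩
  have hmono : Monotone N := by
    intro a b hab
    rw [hN]
    exact Finset.sum_le_sum_of_subset (Finset.range_mono (by omega))
  have hNφ : ∀ j, ∀ r ∈ mR ^ N j, φ r ∈ mR ^ j := by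
    intro j r hr
    refine hN0 j r (Ideal.pow_le_pow_right ?_ hr)
    rw [hN]
    exact Finset.single_le_sum (f := N0) (fun _ _ => Nat.zero_le _)
      (Finset.mem_range.2 (Nat.lt_succ_self j))
  -- comparison of two approximations
  have hcmp : ∀ (j : ℕ) (r r' : R), ι r - ι r' ∈ mS ^ N j → ι (φ r) - ι (φ r') ∈ mS ^ j := by
    intro j r r' h
    rw [← map_sub, ← map_sub]
    apply hup
    apply hNφ
    apply hdn
    rw [map_sub]
    exact h
  -- the relation
  have hex : ∀ s : S, ∃ t : S, ∀ (j : ℕ) (r : R), s - ι r ∈ mS ^ N j → t - ι (φ r) ∈ mS ^ j := by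
    intro s
    choose r hr using fun j => hd (N j) s
    obtain ⟨t, ht⟩ := IsPrecomplete.prec (I := mS) (M := S) IsAdicComplete.toIsPrecomplete
      (f := fun j => ι (φ (r j))) (by
        intro a b hab
        rw [SModEq.sub_mem, smul_eq_mul, Ideal.mul_top]
        apply hcmp
        have h1 : s - ι (r b) ∈ mS ^ N a := Ideal.pow_le_pow_right (hmono hab) (hr b)
        have h2 := sub_mem h1 (hr a)
        rwa [sub_sub_sub_cancel_left] at h2)
    refine ⟨t, fun j r' hr' => ?_⟩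
    have h1 := ht j
    rw [SModEq.sub_mem, smul_eq_mul, Ideal.mul_top] at h1
    have h2 : ι (φ (r j)) - ι (φ r') ∈ mS ^ j := by
      apply hcmp
      have h3 := sub_mem hr' (hr j)
      rwa [sub_sub_sub_cancel_left] at h3
    have h3 := sub_mem h2 h1
    rwa [sub_sub_sub_cancel_left] at h3
  have huniq : ∀ (s t t' : S), (∀ (j : ℕ) (r : R), s - ι r ∈ mS ^ N j → t - ι (φ r) ∈ mS ^ j) →
      (∀ j : ℕ, ∃ r : R, s - ι r ∈ mS ^ N j ∧ t' - ι (φ r) ∈ mS ^ j) → t = t' := by
    intro s t t' h h'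
    rw [← sub_eq_zero]
    refine IsHausdorff.haus (I := mS) (M := S) IsAdicComplete.toIsHausdorff _ fun j => ?_
    rw [SModEq.sub_mem, sub_zero, smul_eq_mul, Ideal.mul_top]
    obtain ⟨r, hr, hr'⟩ := h' j
    have h2 := sub_mem (h j r hr) hr'
    rwa [sub_sub_sub_cancel_right] at h2
  choose L hL using hex
  have hadd : ∀ s s' : S, L (s + s') = L s + L s' := by
    intro s s'
    refine huniq _ _ _ (hL _) fun j => ?_
    obtain ⟨r, hr⟩ := hd (N j) s
    obtain ⟨r', hr'⟩ := hd (N j) s'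
    refine ⟨r + r', ?_, ?_⟩
    · have h2 := add_mem hr hr'
      rw [map_add]
      rwa [sub_add_sub_comm] at h2
    · have h2 := add_mem (hL s j r hr) (hL s' j r' hr')
      rw [map_add, map_add]
      rwa [sub_add_sub_comm] at h2
  refine ⟨AddMonoidHom.mk' L hadd, ?_, ?_⟩
  · intro s t
    show L (s ^ q * t) = s * L t
    refine huniq _ _ _ (hL _) fun j => ?_
    obtain ⟨r, hr⟩ := hd (max (N j) j) s
    obtain ⟨r', hr'⟩ := hd (max (N j) j) t
    have hr1 : s - ι r ∈ mS ^ N j := Ideal.pow_le_pow_right (le_max_left _ _) hr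
    have hr2 : s - ι r ∈ mS ^ j := Ideal.pow_le_pow_right (le_max_right _ _) hr
    have hr1' : t - ι r' ∈ mS ^ N j := Ideal.pow_le_pow_right (le_max_left _ _) hr'
    refine ⟨r ^ q * r', ?_, ?_⟩
    · rw [map_mul, map_pow]
      have h1 : s ^ q - ι r ^ q ∈ mS ^ N j := by
        obtain ⟨c, hc⟩ := sub_dvd_pow_sub_pow s (ι r) q
        rw [hc]
        exact Ideal.mul_mem_right _ _ hr1
      have h2 : s ^ q * t - ι r ^ q * ι r' = (s ^ q - ι r ^ q) * t + ι r ^ q * (t - ι r') := by ring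
      rw [h2]
      exact add_mem (Ideal.mul_mem_right _ _ h1) (Ideal.mul_mem_left _ _ hr1')
    · rw [hφ, map_mul]
      have h2 : s * L t - ι r * ι (φ r') = (s - ι r) * L t + ι r * (L t - ι (φ r')) := by ring
      rw [h2]
      exact add_mem (Ideal.mul_mem_right _ _ hr2) (Ideal.mul_mem_left _ _ (hL t j r' hr1'))
  · intro r
    show L (ι r) = ι (φ r)
    refine huniq _ _ _ (hL _) fun j => ⟨r, ?_, ?_⟩
    · rw [sub_self]
      exact zero_mem _
    · rw [sub_self]
      exact zero_mem _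

end Pool.Agent.H550.FT867CXT
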